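import Mathlib

/-!
# Kloosterman's elementary bound for general modulus (helper93)

`|K(a,b;N)|^4 * φ(N/g) ≤ 2 N^4 d(N)^2` with `g = gcd(a,b,N)`, from the fourth moment.
-/

set_option autoImplicit false

namespace Pool.Agent.MDS.Low

open Finset

/-- The Kloosterman sum `∑ e((a x + b x⁻¹)/N)` over the units `x` of `ZMod N`. -/
noncomputable def kloo (N : ℕ) [NeZero N] (a b : ZMod N) : ℂ :=
  ∑ x : (ZMod N)ˣ, ZMod.stdAddChar (a * (x : ZMod N) + b * ((x⁻¹ : (ZMod N)ˣ) : ZMod N))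

theorem kloo_unit (N : ℕ) [NeZero N] (a b : ZMod N) (u : (ZMod N)ˣ) :
    kloo N (a * (u : ZMod N)) (b * ((u⁻¹ : (ZMod N)ˣ) : ZMod N)) = kloo N a b := by
  unfold kloo
  refine Fintype.sum_equiv (Equiv.mulLeft u) _ _ (fun x => ?_)
  congr 1
  simp only [Equiv.coe_mulLeft, mul_inv_rev, Units.val_mul]
  ring

/-- orthogonality in two variables -/
theorem sum_sum_char (N : ℕ) [NeZero N] (s r : ZMod N) :
    ∑ a : ZMod N, ∑ b : ZMod N, (ZMod.stdAddChar (a * s + b * r) : ℂ) =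
      if s = 0 ∧ r = 0 then (N : ℂ) ^ 2 else 0 := by
  have h1 : ∀ t : ZMod N, ∑ a : ZMod N, (ZMod.stdAddChar (a * t) : ℂ) =
      if t = 0 then (N : ℂ) else 0 := by
    intro t
    have := AddChar.sum_mulShift (ψ := (ZMod.stdAddChar : AddChar (ZMod N) ℂ)) t
      (ZMod.isPrimitive_stdAddChar N)
    rw [this, ZMod.card]
    split_ifs <;> simp
  simp_rw [AddChar.map_add_eq_mul, ← Finset.mul_sum, h1, ← Finset.sum_mul, h1]
  by_cases hs : s = 0 <;> by_cases hr : r = 0 <;> simp [hs, hr, sq]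

/-- `x₁ + x₂ - x₃ - x₄` -/
def fA {N : ℕ} (p : ((ZMod N)ˣ × (ZMod N)ˣ) × ((ZMod N)ˣ × (ZMod N)ˣ)) : ZMod N :=
  ((p.1.1 : ZMod N) + (p.1.2 : ZMod N)) - ((p.2.1 : ZMod N) + (p.2.2 : ZMod N))

/-- `x₁⁻¹ + x₂⁻¹ - x₃⁻¹ - x₄⁻¹` -/
def fB {N : ℕ} (p : ((ZMod N)ˣ × (ZMod N)ˣ) × ((ZMod N)ˣ × (ZMod N)ˣ)) : ZMod N :=
  (((p.1.1⁻¹ : (ZMod N)ˣ) : ZMod N) + ((p.1.2⁻¹ : (ZMod N)ˣ) : ZMod N)) -
    (((p.2.1⁻¹ : (ZMod N)ˣ) : ZMod N) + ((p.2.2⁻¹ : (ZMod N)ˣ) : ZMod N))

theorem kloo_norm_four (N : ℕ) [NeZero N] (a b : ZMod N) :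
    ((‖kloo N a b‖ ^ 4 : ℝ) : ℂ) =
      ∑ p : ((ZMod N)ˣ × (ZMod N)ˣ) × ((ZMod N)ˣ × (ZMod N)ˣ),
        (ZMod.stdAddChar (a * fA p + b * fB p) : ℂ) := by
  have e1 : ((‖kloo N a b‖ ^ 4 : ℝ) : ℂ) =
      (kloo N a b * kloo N a b) * (starRingEnd ℂ (kloo N a b) * starRingEnd ℂ (kloo N a b)) := by
    have h := Complex.mul_conj' (kloo N a b)
    push_cast
    calc (‖kloo N a b‖ : ℂ) ^ 4 = ((‖kloo N a b‖ : ℂ) ^ 2) * ((‖kloo N a b‖ : ℂ) ^ 2) := by
          ring
      _ = _ := by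
          rw [← h]
          ring
  have e2 : starRingEnd ℂ (kloo N a b) = ∑ x : (ZMod N)ˣ,
      (ZMod.stdAddChar (-(a * (x : ZMod N) + b * ((x⁻¹ : (ZMod N)ˣ) : ZMod N))) : ℂ) := by
    unfold kloo
    rw [map_sum]
    refine Finset.sum_congr rfl (fun x _ => ?_)
    rw [AddChar.map_neg_eq_conj]
  have e3 : ∀ F : (ZMod N)ˣ → ℂ, (∑ x, F x) * (∑ x, F x) =
      ∑ p : (ZMod N)ˣ × (ZMod N)ˣ, F p.1 * F p.2 := by
    intro F
    rw [Fintype.sum_mul_sum, Fintype.sum_prod_type]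
  have e4 : ∀ F G : (ZMod N)ˣ × (ZMod N)ˣ → ℂ, (∑ x, F x) * (∑ x, G x) =
      ∑ p : ((ZMod N)ˣ × (ZMod N)ˣ) × ((ZMod N)ˣ × (ZMod N)ˣ), F p.1 * G p.2 := by
    intro F G
    rw [Fintype.sum_mul_sum]
    exact (Fintype.sum_prod_type' (fun i j => F i * G j)).symm
  rw [e1, e2]
  unfold kloo
  rw [e3, e3, e4]
  refine Finset.sum_congr rfl (fun p _ => ?_)
  rw [← AddChar.map_add_eq_mul, ← AddChar.map_add_eq_mul, ← AddChar.map_add_eq_mul]
  congr 1
  unfold fA fB
  ring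

/-- the fourth moment -/
theorem fourth_moment (N : ℕ) [NeZero N] :
    ∑ a : ZMod N, ∑ b : ZMod N, ‖kloo N a b‖ ^ 4 = (N : ℝ) ^ 2 *
      ((Finset.univ : Finset (((ZMod N)ˣ × (ZMod N)ˣ) × ((ZMod N)ˣ × (ZMod N)ˣ))).filter
        (fun p => fA p = 0 ∧ fB p = 0)).card := by
  have hC : ((∑ a : ZMod N, ∑ b : ZMod N, ‖kloo N a b‖ ^ 4 : ℝ) : ℂ) = (((N : ℝ) ^ 2 *
      ((Finset.univ : Finset (((ZMod N)ˣ × (ZMod N)ˣ) × ((ZMod N)ˣ × (ZMod N)ˣ))).filter
        (fun p => fA p = 0 ∧ fB p = 0)).card : ℝ) : ℂ) := by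
    rw [Complex.ofReal_sum]
    simp_rw [Complex.ofReal_sum, kloo_norm_four]
    have e1 : ∀ a : ZMod N, ∑ b : ZMod N,
        ∑ p : ((ZMod N)ˣ × (ZMod N)ˣ) × ((ZMod N)ˣ × (ZMod N)ˣ),
          (ZMod.stdAddChar (a * fA p + b * fB p) : ℂ) =
        ∑ p : ((ZMod N)ˣ × (ZMod N)ˣ) × ((ZMod N)ˣ × (ZMod N)ˣ), ∑ b : ZMod N,
          (ZMod.stdAddChar (a * fA p + b * fB p) : ℂ) := fun a => Finset.sum_comm
    simp_rw [e1]
    rw [Finset.sum_comm]
    simp_rw [sum_sum_char]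
    rw [← Finset.sum_filter, Finset.sum_const, nsmul_eq_mul]
    push_cast
    ring
  exact_mod_cast hC

/-- number of solutions of `D C = 0` -/
theorem card_mul_zero_le (N : ℕ) [NeZero N] (D : ZMod N) :
    ((Finset.univ : Finset (ZMod N)).filter (fun C => D * C = 0)).card ≤ Nat.gcd D.val N := by
  classical
  have hg : 0 < Nat.gcd D.val N := Nat.gcd_pos_of_pos_right _ (Nat.pos_of_ne_zero (NeZero.ne N))
  have hcyc : IsAddCyclic (ZMod N) := inferInstance
  refine le_trans (Finset.card_le_card ?_)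
    (IsAddCyclic.card_nsmul_eq_zero_le (α := ZMod N) (n := Nat.gcd D.val N) hg)
  intro C hC
  rw [Finset.mem_filter] at hC ⊢
  refine ⟨Finset.mem_univ _, ?_⟩
  have h1 : D.val • C = 0 := by
    rw [nsmul_eq_mul, ZMod.natCast_zmod_val]
    exact hC.2
  have h2 : N • C = 0 := by
    rw [nsmul_eq_mul, ZMod.natCast_self, zero_mul]
  rw [← addOrderOf_dvd_iff_nsmul_eq_zero] at h1 h2 ⊢
  exact Nat.dvd_gcd h1 h2

/-- Pillai's function -/
theorem sum_gcd_le (N : ℕ) [NeZero N] :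
    ∑ A : ZMod N, Nat.gcd A.val N ≤ N * N.divisors.card := by
  classical
  have hN : 0 < N := Nat.pos_of_ne_zero (NeZero.ne N)
  have h1 : ∀ A : ZMod N, Nat.gcd A.val N ≤
      ∑ d ∈ N.divisors, if d ∣ A.val then d else 0 := by
    intro A
    have hd : Nat.gcd A.val N ∈ N.divisors := by
      rw [Nat.mem_divisors]
      exact ⟨Nat.gcd_dvd_right _ _, hN.ne'⟩
    have h2 := Finset.single_le_sum (f := fun d => if d ∣ A.val then d else 0)
      (fun i _ => Nat.zero_le _) hd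
    simp only [Nat.gcd_dvd_left, if_true] at h2
    exact h2
  calc ∑ A : ZMod N, Nat.gcd A.val N
      ≤ ∑ A : ZMod N, ∑ d ∈ N.divisors, (if d ∣ A.val then d else 0) :=
        Finset.sum_le_sum (fun A _ => h1 A)
    _ = ∑ d ∈ N.divisors, ∑ A : ZMod N, (if d ∣ A.val then d else 0) := Finset.sum_comm
    _ ≤ ∑ d ∈ N.divisors, N := by
        refine Finset.sum_le_sum (fun d hd => ?_)
        rw [← Finset.sum_filter, Finset.sum_const, smul_eq_mul]
        have hdN : d ∣ N := (Nat.mem_divisors.mp hd).1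
        have hd0 : 0 < d := Nat.pos_of_dvd_of_pos hdN hN
        have h3 : ((Finset.univ : Finset (ZMod N)).filter (fun A => d ∣ A.val)).card ≤ N / d := by
          refine le_trans (Finset.card_le_card (t := (Finset.univ : Finset (ZMod N)).filter
            (fun C => ((N / d : ℕ) : ZMod N) * C = 0)) ?_) ?_
          · intro A hA
            rw [Finset.mem_filter] at hA ⊢
            refine ⟨Finset.mem_univ _, ?_⟩
            obtain ⟨k, hk⟩ := hA.2
            have : A = ((d * k : ℕ) : ZMod N) := by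
              rw [← hk, ZMod.natCast_zmod_val]
            rw [this, ← Nat.cast_mul, ← mul_assoc, Nat.div_mul_cancel hdN, Nat.cast_mul,
              ZMod.natCast_self, zero_mul]
          · refine le_trans (card_mul_zero_le N _) ?_
            rw [ZMod.val_natCast]
            have h4 : Nat.gcd (N / d % N) N = Nat.gcd (N / d) N := by
              rw [Nat.gcd_comm, Nat.gcd_comm (N / d) N, Nat.gcd_rec N (N / d)]
              rw [Nat.gcd_comm]
            rw [h4]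
            exact Nat.gcd_le_left _ (Nat.div_pos (Nat.le_of_dvd hN hdN) hd0)
        calc ((Finset.univ : Finset (ZMod N)).filter (fun A => d ∣ A.val)).card * d
            ≤ N / d * d := Nat.mul_le_mul_right _ h3
          _ = N := Nat.div_mul_cancel hdN
    _ = N * N.divisors.card := by
        rw [Finset.sum_const, smul_eq_mul, mul_comm]

/-- number of solutions of `A B C = 0` -/
theorem card_abc (N : ℕ) [NeZero N] :
    ((Finset.univ : Finset ((ZMod N × ZMod N) × ZMod N)).filter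
      (fun p => p.1.1 * p.1.2 * p.2 = 0)).card ≤ (N * N.divisors.card) ^ 2 := by
  classical
  have hN : 0 < N := Nat.pos_of_ne_zero (NeZero.ne N)
  have h1 : ((Finset.univ : Finset ((ZMod N × ZMod N) × ZMod N)).filter
      (fun p => p.1.1 * p.1.2 * p.2 = 0)).card =
      ∑ q : ZMod N × ZMod N, ((Finset.univ : Finset (ZMod N)).filter
        (fun C => (q.1 * q.2) * C = 0)).card := by
    rw [Finset.card_filter, Fintype.sum_prod_type]
    refine Finset.sum_congr rfl (fun q _ => ?_)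
    rw [Finset.card_filter]
  rw [h1]
  calc ∑ q : ZMod N × ZMod N, ((Finset.univ : Finset (ZMod N)).filter
        (fun C => (q.1 * q.2) * C = 0)).card
      ≤ ∑ q : ZMod N × ZMod N, Nat.gcd q.1.val N * Nat.gcd q.2.val N := by
        refine Finset.sum_le_sum (fun q _ => ?_)
        refine le_trans (card_mul_zero_le N _) ?_
        have h2 : Nat.gcd (q.1 * q.2).val N = Nat.gcd N (q.1.val * q.2.val) := by
          rw [ZMod.val_mul, Nat.gcd_rec N (q.1.val * q.2.val)]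
        rw [h2]
        have h3 : Nat.gcd N (q.1.val * q.2.val) ∣ Nat.gcd N q.1.val * Nat.gcd N q.2.val :=
          gcd_mul_dvd_mul_gcd (α := ℕ) N q.1.val q.2.val
        rw [Nat.gcd_comm q.1.val, Nat.gcd_comm q.2.val]
        exact Nat.le_of_dvd (Nat.mul_pos (Nat.gcd_pos_of_pos_left _ hN)
          (Nat.gcd_pos_of_pos_left _ hN)) h3
    _ = (∑ A : ZMod N, Nat.gcd A.val N) * (∑ A : ZMod N, Nat.gcd A.val N) := by
        rw [Fintype.sum_mul_sum, Fintype.sum_prod_type]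
    _ ≤ (N * N.divisors.card) ^ 2 := by
        rw [sq]
        exact Nat.mul_le_mul (sum_gcd_le N) (sum_gcd_le N)

theorem card_two (N : ℕ) [NeZero N] :
    ((Finset.univ : Finset (ZMod N)).filter (fun C => (2 : ZMod N) * C = 0)).card ≤ 2 := by
  classical
  have hcyc : IsAddCyclic (ZMod N) := inferInstance
  refine le_trans (Finset.card_le_card ?_)
    (IsAddCyclic.card_nsmul_eq_zero_le (α := ZMod N) (n := 2) two_pos)
  intro C hC
  rw [Finset.mem_filter] at hC ⊢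
  refine ⟨Finset.mem_univ _, ?_⟩
  rw [nsmul_eq_mul]
  exact_mod_cast hC.2

theorem alg_aux {R : Type*} [CommRing R] (x1 x2 x3 x4 y1 y2 y3 y4 : R)
    (hA : (x1 + x2) - (x3 + x4) = 0) (hB : (y1 + y2) - (y3 + y4) = 0)
    (i1 : x1 * y1 = 1) (i2 : x2 * y2 = 1) (i3 : x3 * y3 = 1) (i4 : x4 * y4 = 1) :
    (x1 + x2) * (x3 - x1) * (x2 - x3) = 0 := by
  linear_combination (x1 * x2 * x3 * x4) * hB - x2 * x3 * x4 * i1 - x1 * x3 * x4 * i2 +
    x1 * x2 * x4 * i3 + x1 * x2 * x3 * i4 - x1 * x2 * hA + (x1 + x2) * x3 * hA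

/-- the number of solutions of the two equations -/
theorem card_sol (N : ℕ) [NeZero N] :
    ((Finset.univ : Finset (((ZMod N)ˣ × (ZMod N)ˣ) × ((ZMod N)ˣ × (ZMod N)ˣ))).filter
        (fun p => fA p = 0 ∧ fB p = 0)).card ≤ 2 * (N * N.divisors.card) ^ 2 := by
  classical
  set S := (Finset.univ : Finset (((ZMod N)ˣ × (ZMod N)ˣ) × ((ZMod N)ˣ × (ZMod N)ˣ))).filter
        (fun p => fA p = 0 ∧ fB p = 0) with hS
  let φ : ((ZMod N)ˣ × (ZMod N)ˣ) × ((ZMod N)ˣ × (ZMod N)ˣ) → (ZMod N × ZMod N) × ZMod N :=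
    fun p => (((p.1.1 : ZMod N) + (p.1.2 : ZMod N), (p.2.1 : ZMod N) - (p.1.1 : ZMod N)),
      (p.1.2 : ZMod N) - (p.2.1 : ZMod N))
  have h1 : ∀ p ∈ S, φ p ∈ (Finset.univ : Finset ((ZMod N × ZMod N) × ZMod N)).filter
      (fun p => p.1.1 * p.1.2 * p.2 = 0) := by
    intro p hp
    rw [hS, Finset.mem_filter] at hp
    rw [Finset.mem_filter]
    refine ⟨Finset.mem_univ _, ?_⟩
    obtain ⟨hA, hB⟩ := hp.2
    exact alg_aux _ _ _ _ _ _ _ _ hA hB (Units.mul_inv _) (Units.mul_inv _) (Units.mul_inv _)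
      (Units.mul_inv _)
  refine le_trans (Finset.card_le_mul_card_image_of_maps_to h1 2 ?_)
    (Nat.mul_le_mul_left 2 (card_abc N))
  intro b _
  rcases Finset.eq_empty_or_nonempty (S.filter fun p => φ p = b) with he | ⟨p0, hp0⟩
  · rw [he]
    simp
  · refine le_trans (Finset.card_le_card_of_injOn
      (fun p => (p.1.1 : ZMod N) - (p0.1.1 : ZMod N)) ?_ ?_) (card_two N)
    · intro p hp
      have hp' := Finset.mem_coe.mp hp
      rw [Finset.mem_filter] at hp' hp0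
      have hEq : φ p = φ p0 := hp'.2.trans hp0.2.symm
      simp only [φ, Prod.mk.injEq] at hEq
      obtain ⟨⟨e1, e2⟩, e3⟩ := hEq
      simp only [Finset.coe_filter, Finset.mem_univ, true_and, Set.mem_ofPred_eq]
      linear_combination e1 - e2 - e3
    · intro p hp p' hp' hpp
      have hp1 := Finset.mem_coe.mp hp
      have hp1' := Finset.mem_coe.mp hp'
      rw [Finset.mem_filter] at hp1 hp1'
      have hEq : φ p = φ p' := hp1.2.trans hp1'.2.symm
      simp only [φ, Prod.mk.injEq] at hEq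
      obtain ⟨⟨e1, e2⟩, e3⟩ := hEq
      have hA := (Finset.mem_filter.mp hp1.1).2.1
      have hA' := (Finset.mem_filter.mp hp1'.1).2.1
      unfold fA at hA hA'
      have hpp' : (p.1.1 : ZMod N) - (p0.1.1 : ZMod N) = (p'.1.1 : ZMod N) - (p0.1.1 : ZMod N) :=
        hpp
      have k1 : (p.1.1 : ZMod N) = (p'.1.1 : ZMod N) := by linear_combination hpp'
      have k2 : (p.1.2 : ZMod N) = (p'.1.2 : ZMod N) := by linear_combination e1 - k1
      have k3 : (p.2.1 : ZMod N) = (p'.2.1 : ZMod N) := by linear_combination e2 + k1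
      have k4 : (p.2.2 : ZMod N) = (p'.2.2 : ZMod N) := by
        linear_combination k1 + k2 - k3 - hA + hA'
      exact Prod.ext (Prod.ext (Units.ext k1) (Units.ext k2)) (Prod.ext (Units.ext k3)
        (Units.ext k4))

/-- the fourth moment is small -/
theorem fourth_moment_le (N : ℕ) [NeZero N] :
    ∑ a : ZMod N, ∑ b : ZMod N, ‖kloo N a b‖ ^ 4 ≤
      2 * (N : ℝ) ^ 4 * (N.divisors.card : ℝ) ^ 2 := by
  rw [fourth_moment]
  have h := card_sol N
  have h' : (((Finset.univ : Finset (((ZMod N)ˣ × (ZMod N)ˣ) × ((ZMod N)ˣ × (ZMod N)ˣ))).filter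
        (fun p => fA p = 0 ∧ fB p = 0)).card : ℝ) ≤ 2 * ((N : ℝ) * (N.divisors.card : ℝ)) ^ 2 := by
    exact_mod_cast h
  calc (N : ℝ) ^ 2 * _ ≤ (N : ℝ) ^ 2 * (2 * ((N : ℝ) * (N.divisors.card : ℝ)) ^ 2) := by
        gcongr
    _ = _ := by ring

/-- **Kloosterman's bound** for an arbitrary modulus: `g = gcd(a, b, N)`. -/
theorem kloo_bound (N : ℕ) [NeZero N] (a b : ℤ) :
    (Nat.totient (N / Nat.gcd (Int.gcd a b) N) : ℝ) * ‖kloo N (a : ZMod N) (b : ZMod N)‖ ^ 4 ≤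
      2 * (N : ℝ) ^ 4 * (N.divisors.card : ℝ) ^ 2 := by
  classical
  have hN : 0 < N := Nat.pos_of_ne_zero (NeZero.ne N)
  set g := Nat.gcd (Int.gcd a b) N with hg
  have hgN : g ∣ N := Nat.gcd_dvd_right _ _
  have hg0 : 0 < g := Nat.pos_of_dvd_of_pos hgN hN
  obtain ⟨N', hN'⟩ := hgN
  have hN'0 : 0 < N' := by
    rcases Nat.eq_zero_or_pos N' with h | h
    · rw [h] at hN'
      omega
    · exact h
  have hdiv : N / g = N' := by
    rw [hN']
    exact Nat.mul_div_cancel_left N' hg0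
  rw [hdiv]
  have : NeZero N' := ⟨hN'0.ne'⟩
  have hd : N' ∣ N := ⟨g, by rw [hN', mul_comm]⟩
  have hsurj := ZMod.unitsMap_surjective hd
  obtain ⟨s, hs⟩ := hsurj.hasRightInverse
  -- Bezout
  have hbez : ∃ x y w : ℤ, (g : ℤ) = a * x + b * y + N * w := by
    have e1 := Nat.gcd_eq_gcd_ab (Int.gcd a b) N
    have e2 := Int.gcd_eq_gcd_ab a b
    refine ⟨Int.gcdA a b * Nat.gcdA (Int.gcd a b) N, Int.gcdB a b * Nat.gcdA (Int.gcd a b) N,
      Nat.gcdB (Int.gcd a b) N, ?_⟩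
    rw [hg, e1, e2]
    ring
  let G : (ZMod N')ˣ → ZMod N × ZMod N := fun w =>
    ((a : ZMod N) * (s w : ZMod N), (b : ZMod N) * (((s w)⁻¹ : (ZMod N)ˣ) : ZMod N))
  have hGinj : Function.Injective G := by
    intro w w' hww
    simp only [G, Prod.mk.injEq] at hww
    obtain ⟨e1, e2⟩ := hww
    have e3 : (b : ZMod N) * (s w : ZMod N) = (b : ZMod N) * (s w' : ZMod N) := by
      have i1 : (s w : ZMod N) * (((s w)⁻¹ : (ZMod N)ˣ) : ZMod N) = 1 := Units.mul_inv _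
      have i2 : (s w' : ZMod N) * (((s w')⁻¹ : (ZMod N)ˣ) : ZMod N) = 1 := Units.mul_inv _
      linear_combination (-(s w : ZMod N) * (s w' : ZMod N)) * e2 +
        (b : ZMod N) * (s w' : ZMod N) * i1 - (b : ZMod N) * (s w : ZMod N) * i2
    -- lift to integers
    obtain ⟨k, hk⟩ := ZMod.intCast_surjective ((s w : ZMod N) - (s w' : ZMod N))
    have f1 : ((a * k : ℤ) : ZMod N) = 0 := by
      push_cast
      rw [hk]
      linear_combination e1
    have f2 : ((b * k : ℤ) : ZMod N) = 0 := by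
      push_cast
      rw [hk]
      linear_combination e3
    rw [ZMod.intCast_zmod_eq_zero_iff_dvd] at f1 f2
    obtain ⟨x, y, v, hxy⟩ := hbez
    have f3 : (N : ℤ) ∣ g * k := by
      rw [hxy]
      have : (a * x + b * y + N * v) * k = a * k * x + b * k * y + N * (v * k) := by ring
      rw [this]
      exact dvd_add (dvd_add (Dvd.dvd.mul_right f1 x) (Dvd.dvd.mul_right f2 y))
        (Dvd.intro _ rfl)
    have f4 : (N' : ℤ) ∣ k := by
      rw [hN'] at f3
      push_cast at f3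
      exact (mul_dvd_mul_iff_left (by exact_mod_cast hg0.ne')).mp f3
    have f5 : ((k : ℤ) : ZMod N') = 0 := (ZMod.intCast_zmod_eq_zero_iff_dvd k N').mpr f4
    have f6 : (ZMod.castHom hd (ZMod N')) ((s w : ZMod N) - (s w' : ZMod N)) = 0 := by
      rw [← hk, map_intCast]
      exact f5
    rw [map_sub, sub_eq_zero] at f6
    have f7 : ZMod.unitsMap hd (s w) = ZMod.unitsMap hd (s w') := by
      apply Units.ext
      exact f6
    rw [hs w, hs w'] at f7
    exact f7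
  calc (Nat.totient N' : ℝ) * ‖kloo N (a : ZMod N) (b : ZMod N)‖ ^ 4
      = ∑ w : (ZMod N')ˣ, ‖kloo N (G w).1 (G w).2‖ ^ 4 := by
        have e1 : ∀ w : (ZMod N')ˣ, ‖kloo N (G w).1 (G w).2‖ ^ 4 =
            ‖kloo N (a : ZMod N) (b : ZMod N)‖ ^ 4 := by
          intro w
          simp only [G]
          rw [kloo_unit]
        rw [Finset.sum_congr rfl (fun w _ => e1 w), Finset.sum_const, nsmul_eq_mul,
          Finset.card_univ, ZMod.card_units_eq_totient]
    _ = ∑ p ∈ (Finset.univ : Finset (ZMod N')ˣ).image G, ‖kloo N p.1 p.2‖ ^ 4 := by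
        rw [Finset.sum_image (fun _ _ _ _ h => hGinj h)]
    _ ≤ ∑ p : ZMod N × ZMod N, ‖kloo N p.1 p.2‖ ^ 4 := by
        apply Finset.sum_le_sum_of_subset_of_nonneg (Finset.subset_univ _)
        intro i _ _
        positivity
    _ = ∑ a : ZMod N, ∑ b : ZMod N, ‖kloo N a b‖ ^ 4 := by
        rw [Fintype.sum_prod_type]
    _ ≤ _ := fourth_moment_le N

end Pool.Agent.MDS.Low
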